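import Mathlib
import Pool.Graph.R_pool_sql_team_39128cda.Results.MP_f0917b_co.Yes

/-!
Labels inside one block: two injections `f, g : V → {0, ..., m-1}`. Helper for MP_f0917b_co.
-/

set_option autoImplicit false

namespace Pool.Agent.LM97

open Finset

/-- Hall's theorem for dense bipartite graphs. -/
lemma hall {α β : Type} [Fintype α] [Fintype β] [DecidableEq β] (bad : α → β → Prop)
    [∀ x y, Decidable (bad x y)] (a b : ℕ) (hc : Fintype.card α ≤ Fintype.card β)
    (ha : ∀ x, (univ.filter fun y => bad x y).card ≤ a)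
    (hb : ∀ y, (univ.filter fun x => bad x y).card ≤ b) (hab : a + b ≤ Fintype.card β) :
    ∃ e : α → β, Function.Injective e ∧ ∀ x, ¬ bad x (e x) := by
  classical
  obtain ⟨e, he, h⟩ := (Finset.all_card_le_biUnion_card_iff_exists_injective
    (fun x => univ.filter fun y => ¬ bad x y)).1 (by
      intro S
      rcases S.eq_empty_or_nonempty with rfl | ⟨x, hx⟩
      · simp
      by_cases hS : S.card + a ≤ Fintype.card β
      · have h1 : (univ.filter fun y => ¬ bad x y) ⊆
            S.biUnion fun x => univ.filter fun y => ¬ bad x y :=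
          subset_biUnion_of_mem (fun x => univ.filter fun y => ¬ bad x y) hx
        have h2 := card_le_card h1
        have h3 := card_filter_add_card_filter_not (s := (univ : Finset β)) (fun y => bad x y)
        rw [card_univ] at h3
        have := ha x
        omega
      · have h1 : (S.biUnion fun x => univ.filter fun y => ¬ bad x y) = univ := by
          rw [eq_univ_iff_forall]
          intro y
          by_contra hy
          have h2 : S ⊆ univ.filter fun x => bad x y := by
            intro z hz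
            rw [mem_filter]
            refine ⟨mem_univ _, ?_⟩
            by_contra hn
            exact hy (mem_biUnion.2 ⟨z, hz, mem_filter.2 ⟨mem_univ _, hn⟩⟩)
          have h3 := card_le_card h2
          have := hb y
          omega
        rw [h1, card_univ]
        exact (card_le_univ S).trans hc)
  exact ⟨e, he, fun x => (mem_filter.1 (h x)).2⟩

variable {V : Type} [Fintype V] [DecidableEq V] (G : SimpleGraph V) [DecidableRel G.Adj]

/-- An injective labelling in which consecutive labels are given to nonadjacent vertices. -/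
lemma exists_f {d m : ℕ} (hd : ∀ v, G.degree v ≤ d) (hn : Fintype.card V ≤ m) (hm : 2 * d + 2 ≤ m) :
    ∃ f : V → ℕ, Function.Injective f ∧ (∀ v, f v < m) ∧
      ∀ u v, G.Adj u v → f u + 2 ≤ f v ∨ f v + 2 ≤ f u := by
  classical
  let e := Fintype.equivFin V
  have elt : ∀ v, (e v : ℕ) < m := fun v => lt_of_lt_of_le (e v).2 hn
  obtain ⟨q, -, h2, h3⟩ := Pool.Agent.Results.MP_f0917b_co.Yes.order m d 0 (by omega) hm
    (fun a b => ∃ u v, G.Adj u v ∧ (e u : ℕ) = a ∧ (e v : ℕ) = b)
    (by rintro a b ⟨u, v, h, rfl, rfl⟩; exact ⟨v, u, h.symm, rfl, rfl⟩)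
    (by rintro a b ⟨u, v, h, rfl, rfl⟩; exact elt v)
    (by
      intro a
      by_cases ha : ∃ v, (e v : ℕ) = a
      · obtain ⟨v, rfl⟩ := ha
        refine ⟨(G.neighborFinset v).image fun w => (e w : ℕ), card_image_le.trans (hd v), ?_⟩
        rintro b ⟨u, w, h, rfl, h'⟩
        have : w = v := e.injective (Fin.ext h')
        subst this
        exact mem_image.2 ⟨u, by simpa using h.symm, rfl⟩
      · refine ⟨∅, by simp, ?_⟩
        rintro b ⟨u, w, h, rfl, h'⟩
        exact absurd ⟨w, h'⟩ ha)
  have hlt : ∀ k < m, q.symm k < m := by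
    intro k hk
    by_contra h
    have := h2 _ (not_lt.1 h)
    rw [q.apply_symm_apply] at this
    omega
  refine ⟨fun v => q.symm (e v), fun u v h => e.injective (Fin.ext (q.symm.injective h)),
    fun v => hlt _ (elt v), fun u v h => ?_⟩
  have hne : q.symm (e u) ≠ q.symm (e v) := fun h' =>
    h.ne (e.injective (Fin.ext (q.symm.injective h')))
  have h4 : q.symm (e u) + 1 ≠ q.symm (e v) := fun h' => by
    refine h3 _ (hlt _ (elt u)) ⟨u, v, h, by simp, by rw [h']; simp⟩
  have h5 : q.symm (e v) + 1 ≠ q.symm (e u) := fun h' => by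
    refine h3 _ (hlt _ (elt v)) ⟨v, u, h.symm, by simp, by rw [h']; simp⟩
  show q.symm (e u) + 2 ≤ q.symm (e v) ∨ q.symm (e v) + 2 ≤ q.symm (e u)
  omega

/-- Vertices at distance at most two, without the vertex itself. -/
def far (v : V) : Finset V :=
  (G.neighborFinset v).biUnion fun k => (G.neighborFinset k).erase v

lemma card_far {d : ℕ} (hd : ∀ v, G.degree v ≤ d) (v : V) : (far G v).card ≤ d * (d - 1) := by
  refine (card_biUnion_le_card_mul _ _ (d - 1) fun k hk => ?_).trans
    (Nat.mul_le_mul_right _ (hd v))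
  rw [card_erase_of_mem (by simpa using ((G.mem_neighborFinset v k).1 hk).symm)]
  exact Nat.sub_le_sub_right (hd k) 1

lemma mem_far {u v : V} : u ∈ far G v ↔ u ≠ v ∧ ∃ k, G.Adj v k ∧ G.Adj k u := by
  simp only [far, mem_biUnion, SimpleGraph.mem_neighborFinset, mem_erase]
  constructor
  · rintro ⟨k, h1, h2, h3⟩; exact ⟨h2, k, h1, h3⟩
  · rintro ⟨h2, k, h1, h3⟩; exact ⟨k, h1, h2, h3⟩

lemma arith (d : ℕ) : 1 + 3 * d + d * (d - 1) ≤ (d + 1) ^ 2 := by
  rcases d with _ | d
  · simp
  · simp only [Nat.add_sub_cancel]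
    nlinarith

/-- The second labelling. -/
lemma exists_g {d m : ℕ} (hd : ∀ v, G.degree v ≤ d) (hn : Fintype.card V ≤ m)
    (hm : 2 * (d + 1) ^ 2 ≤ m) {f : V → ℕ} (hf : Function.Injective f) (hfm : ∀ v, f v < m) :
    ∃ g : V → ℕ, Function.Injective g ∧ (∀ v, g v < m) ∧
      (∀ u v, G.Adj u v → f u + 2 ≤ g v ∨ g v + 2 ≤ f u) ∧ (∀ v, f v ≠ g v) ∧
      ∀ u v k, G.Adj v k → G.Adj k u → f u ≠ g v := by
  classical
  have key := hall (α := V) (β := Fin m) (fun v l => (l : ℕ) = f v ∨
    (∃ u, G.Adj u v ∧ (l : ℕ) ≤ f u + 1 ∧ f u ≤ l + 1) ∨ ∃ u ∈ far G v, (l : ℕ) = f u)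
    ((d + 1) ^ 2) ((d + 1) ^ 2) (by simpa using hn) ?_ ?_ (by simpa [two_mul] using hm)
  · obtain ⟨e, he, h⟩ := key
    refine ⟨fun v => e v, fun u v h' => he (Fin.ext h'), fun v => (e v).2, fun u v hu => ?_,
      fun v h' => h v (Or.inl h'.symm), fun u v k h1 h2 h' => ?_⟩
    · show f u + 2 ≤ (e v : ℕ) ∨ (e v : ℕ) + 2 ≤ f u
      by_contra hn
      exact h v (Or.inr (Or.inl ⟨u, hu, by omega, by omega⟩))
    · by_cases huv : u = v
      · subst huv
        exact h u (Or.inl h'.symm)
      · exact h v (Or.inr (Or.inr ⟨u, (mem_far G).2 ⟨huv, k, h1, h2⟩, h'.symm⟩))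
  · intro v
    have h1 : ((univ.filter fun l : Fin m => (l : ℕ) = f v ∨
        (∃ u, G.Adj u v ∧ (l : ℕ) ≤ f u + 1 ∧ f u ≤ l + 1) ∨ ∃ u ∈ far G v, (l : ℕ) = f u).image
          fun l : Fin m => (l : ℕ)) ⊆
        {f v} ∪ ((G.neighborFinset v).biUnion fun u => {f u - 1, f u, f u + 1}) ∪
          (far G v).image f := by
      intro l hl
      obtain ⟨k, hk, rfl⟩ := mem_image.1 hl
      rcases (mem_filter.1 hk).2 with h | ⟨u, h, h', h''⟩ | ⟨u, h, h'⟩
      · simp [h]
      · refine mem_union_left _ (mem_union_right _ (mem_biUnion.2 ⟨u, by simpa using h.symm, ?_⟩))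
        simp only [mem_insert, mem_singleton]
        omega
      · exact mem_union_right _ (mem_image.2 ⟨u, h, h'.symm⟩)
    have h2 := card_le_card h1
    rw [card_image_of_injective _ Fin.val_injective] at h2
    have h3 : ((G.neighborFinset v).biUnion fun u => {f u - 1, f u, f u + 1}).card ≤ d * 3 :=
      (card_biUnion_le_card_mul _ _ 3 fun u _ => card_le_three).trans
        (Nat.mul_le_mul_right _ (hd v))
    have h4 : ((far G v).image f).card ≤ d * (d - 1) := card_image_le.trans (card_far G hd v)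
    have h5 := card_union_le ({f v} ∪ ((G.neighborFinset v).biUnion fun u =>
      {f u - 1, f u, f u + 1})) ((far G v).image f)
    have h6 := card_union_le ({f v} : Finset ℕ) ((G.neighborFinset v).biUnion fun u =>
      {f u - 1, f u, f u + 1})
    rw [card_singleton] at h6
    have := arith d
    omega
  · intro l
    have h1 : (univ.filter fun v : V => (l : ℕ) = f v ∨
        (∃ u, G.Adj u v ∧ (l : ℕ) ≤ f u + 1 ∧ f u ≤ l + 1) ∨ ∃ u ∈ far G v, (l : ℕ) = f u) ⊆
        (univ.filter fun v => f v = l) ∪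
          ((univ.filter fun u : V => (l : ℕ) ≤ f u + 1 ∧ f u ≤ l + 1).biUnion fun u =>
            G.neighborFinset u) ∪ ((univ.filter fun u : V => f u = l).biUnion fun u => far G u) := by
      intro v hv
      rcases (mem_filter.1 hv).2 with h | ⟨u, h, h', h''⟩ | ⟨u, h, h'⟩
      · exact mem_union_left _ (mem_union_left _ (by simp [h]))
      · exact mem_union_left _ (mem_union_right _ (mem_biUnion.2
          ⟨u, mem_filter.2 ⟨mem_univ _, h', h''⟩, by simpa using h⟩))
      · refine mem_union_right _ (mem_biUnion.2 ⟨u, mem_filter.2 ⟨mem_univ _, h'.symm⟩, ?_⟩)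
        obtain ⟨h3, k, h4, h5⟩ := (mem_far G).1 h
        exact (mem_far G).2 ⟨h3.symm, k, h5.symm, h4.symm⟩
    have c1 : (univ.filter fun v => f v = (l : ℕ)).card ≤ 1 :=
      card_le_one.2 fun a ha b hb => hf (((mem_filter.1 ha).2).trans (mem_filter.1 hb).2.symm)
    have c3 : (univ.filter fun u : V => (l : ℕ) ≤ f u + 1 ∧ f u ≤ l + 1).card ≤ 3 := by
      have h2 : ((univ.filter fun u : V => (l : ℕ) ≤ f u + 1 ∧ f u ≤ l + 1).image f) ⊆
          {(l : ℕ) - 1, (l : ℕ), (l : ℕ) + 1} := by
        intro k hk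
        obtain ⟨u, hu, rfl⟩ := mem_image.1 hk
        have := (mem_filter.1 hu).2
        simp only [mem_insert, mem_singleton]
        omega
      have h3 := card_le_card h2
      rw [card_image_of_injective _ hf] at h3
      exact h3.trans card_le_three
    have h2 := card_le_card h1
    have h3 := card_union_le ((univ.filter fun v => f v = (l : ℕ)) ∪
          ((univ.filter fun u : V => (l : ℕ) ≤ f u + 1 ∧ f u ≤ l + 1).biUnion fun u =>
            G.neighborFinset u)) ((univ.filter fun u : V => f u = l).biUnion fun u => far G u)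
    have h4 := card_union_le (univ.filter fun v => f v = (l : ℕ))
          ((univ.filter fun u : V => (l : ℕ) ≤ f u + 1 ∧ f u ≤ l + 1).biUnion fun u =>
            G.neighborFinset u)
    have h5 : ((univ.filter fun u : V => (l : ℕ) ≤ f u + 1 ∧ f u ≤ l + 1).biUnion fun u =>
            G.neighborFinset u).card ≤ 3 * d :=
      (card_biUnion_le_card_mul _ _ d fun u _ => hd u).trans (Nat.mul_le_mul_right _ c3)
    have h6 : ((univ.filter fun u : V => f u = l).biUnion fun u => far G u).card ≤
        1 * (d * (d - 1)) :=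
      (card_biUnion_le_card_mul _ _ _ fun u _ => card_far G hd u).trans (Nat.mul_le_mul_right _ c1)
    have := arith d
    omega

end Pool.Agent.LM97
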