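import Pool.Agent.LM97.A

/-!
Graphs of maximum degree at least three: strict inequality unless the graph is a Moore graph.
Helper for MP_f0917b_co.
-/

set_option autoImplicit false

namespace Pool.Agent.LM97

open Finset Pool.Agent.Results.MP_f0917b_co.Yes

/-- A Hamiltonian path starting at `s` in the complement of `r`, under Ore's condition. -/
lemma order' (N s : ℕ) (hs : s < N) (r : ℕ → ℕ → Prop) (S : ℕ → Finset ℕ)
    (sy : ∀ a b, r a b → r b a) (lt : ∀ a b, r a b → b < N)
    (dg : ∀ a b, r b a → b ∈ S a) (ore : ∀ a b, a ≠ b → (S a).card + (S b).card + 2 ≤ N) :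
    ∃ q : Equiv.Perm ℕ, q 0 = s ∧ (∀ k, N ≤ k → q k = k) ∧ ∀ k < N, ¬ r (q k) (q (k + 1)) := by
  classical
  obtain ⟨q, ⟨h1, h2⟩, hm⟩ := exists_minimalFor_of_wellFoundedLT
    (fun q : Equiv.Perm ℕ => q 0 = s ∧ ∀ k, N ≤ k → q k = k)
    (fun q => ((range N).filter fun k => r (q k) (q (k + 1))).card)
    ⟨Equiv.swap 0 s, by simp, fun k hk => Equiv.swap_apply_of_ne_of_ne (by omega) (by omega)⟩
  refine ⟨q, h1, h2, fun j hj hr => ?_⟩
  have a2 := dg (q j)
  have b2 := dg (q (j + 1))
  have or' := ore (q j) (q (j + 1)) (fun h => by have := q.injective h; omega)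
  obtain ⟨i, hi, hi'⟩ := exists_mem_notMem_of_card_lt_card (t := range N)
    (s := insert j ((S (q j)).image q.symm ∪ (S (q (j + 1))).image fun b => q.symm b - 1)) (by
      have := card_insert_le j ((S (q j)).image q.symm ∪
        (S (q (j + 1))).image fun b => q.symm b - 1)
      have := card_union_le ((S (q j)).image q.symm) ((S (q (j + 1))).image fun b => q.symm b - 1)
      have := card_image_le (s := S (q j)) (f := q.symm)
      have := card_image_le (s := S (q (j + 1))) (f := fun b => q.symm b - 1)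
      rw [card_range]; omega)
  simp only [mem_insert, mem_union, mem_image, not_or, not_exists, not_and, mem_range] at hi hi'
  have g1 : ¬ r (q i) (q j) := fun k => hi'.2.1 _ (a2 _ k) (by simp)
  have g2 : ¬ r (q (i + 1)) (q (j + 1)) := fun k => hi'.2.2 _ (b2 _ k) (by simp)
  obtain ⟨lo, hi, l1, l2, l3, l4, l5⟩ : ∃ lo hi, lo < hi ∧ hi < N ∧ (j = lo ∨ j = hi) ∧
      ¬ r (q lo) (q hi) ∧ ¬ r (q (lo + 1)) (q (hi + 1)) := by
    rcases lt_or_gt_of_ne hi'.1 with k | k
    exacts [⟨i, j, k, hj, Or.inr rfl, g1, g2⟩,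
      ⟨j, i, k, hi, Or.inl rfl, fun k => g1 (sy _ _ k), fun k => g2 (sy _ _ k)⟩]
  let ρ : ℕ → ℕ := fun k => if lo < k ∧ k ≤ hi then lo + 1 + hi - k else k
  have iv : Function.Involutive ρ := fun k => by simp only [ρ]; split_ifs <;> omega
  have le : (((range N).filter fun k => r (q (ρ k)) (q (ρ (k + 1)))).card) ≤
      (((range N).filter fun k => r (q k) (q (k + 1))).erase j).card := by
    refine card_le_card_of_injOn (fun k => if lo < k ∧ k < hi then lo + hi - k else k)
      (fun k hk => ?_) fun a _ b _ e => by simp only at e; split_ifs at e <;> omega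
    simp only [coe_filter, mem_range, Set.mem_ofPred_eq, coe_erase, Set.mem_sdiff,
      Set.mem_singleton_iff] at hk ⊢
    obtain ⟨k1, k2⟩ := hk
    have n1 : k ≠ lo := by
      rintro rfl
      rw [show ρ k = k by simp [ρ], show ρ (k + 1) = hi by simp only [ρ]; split_ifs <;> omega] at k2
      exact l4 k2
    have n2 : k ≠ hi := by
      rintro rfl
      rw [show ρ k = lo + 1 by simp only [ρ]; split_ifs <;> omega,
        show ρ (k + 1) = k + 1 by simp [ρ]] at k2
      exact l5 k2
    split_ifs with h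
    · rw [show ρ k = lo + hi - k + 1 by simp only [ρ]; split_ifs <;> omega,
        show ρ (k + 1) = lo + hi - k by simp only [ρ]; split_ifs <;> omega] at k2
      exact ⟨⟨by omega, sy _ _ k2⟩, by omega⟩
    · rw [show ρ k = k by simp only [ρ]; split_ifs <;> omega,
        show ρ (k + 1) = k + 1 by simp only [ρ]; split_ifs <;> omega] at k2
      exact ⟨⟨k1, k2⟩, by omega⟩
  have lt' := card_erase_lt_of_mem (s := (range N).filter fun k => r (q k) (q (k + 1))) (a := j)
    (by simp [hj, hr])
  have := hm (j := q * iv.toPerm) ⟨by simp [ρ, h1], fun k hk => by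
    simp only [Equiv.Perm.mul_apply, Function.Involutive.coe_toPerm, ρ]
    rw [if_neg (by omega), h2 k hk]⟩ (le.trans lt'.le)
  exact absurd (this.trans le) (not_le.2 lt')

variable {V : Type} [Fintype V] [DecidableEq V] (G : SimpleGraph V) [DecidableRel G.Adj]

/-- Two injective numberings of the vertices which can be rearranged to a labelling. -/
lemma finish {D n N : ℕ} (h : ∀ x, G.degree x ≤ D) {f0 g0 : V → ℕ} (f1 : Function.Injective f0)
    (g1 : Function.Injective g0) (f2 : ∀ x, f0 x < N) (g2 : ∀ x, g0 x < n) (hnN : n < N)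
    (h1 : ∀ x, f0 x ≠ g0 x) (h2 : ∀ x y, G.Adj x y → f0 x ≠ g0 y)
    (h3 : ∀ x y z, G.Adj x z → G.Adj y z → f0 x ≠ g0 y)
    (h4 : 6 * D + 2 ≤ N ∨ (5 * D + 2 ≤ N ∧ ∀ x y x' y', f0 x = g0 y → f0 x' = g0 y' → x = x') ∨
      (4 * D + 2 ≤ N ∧ ∀ x y, f0 x ≠ g0 y)) :
    ∃ f, LL (Myc G) f ∧ ∀ x, f x ≤ N := by
  classical
  let r := fun a b => ∃ x y, G.Adj x y ∧
    (a = f0 x ∧ b = f0 y ∨ a = f0 x ∧ b = g0 y ∨ a = g0 x ∧ b = f0 y)
  have im : ∀ (y : V) (φ : V → ℕ), ((G.neighborFinset y).image φ).card ≤ D := fun y φ =>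
    card_image_le.trans (h y)
  have key : ∀ a, ∃ S : Finset ℕ, (∀ b, r b a → b ∈ S) ∧
      S.card ≤ (if ∃ y, f0 y = a then 2 * D else 0) + (if ∃ y, g0 y = a then D else 0) := by
    intro a
    obtain ⟨S, s1, s2⟩ : ∃ S : Finset ℕ, S.card ≤ (if ∃ y, f0 y = a then 2 * D else 0) ∧
        ∀ x y, G.Adj x y → f0 y = a → f0 x ∈ S ∧ g0 x ∈ S := by
      split_ifs with k
      · obtain ⟨y, rfl⟩ := k
        refine ⟨(G.neighborFinset y).image f0 ∪ (G.neighborFinset y).image g0,
          (card_union_le _ _).trans (by have := im y f0; have := im y g0; omega),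
          fun x z k e => ?_⟩
        obtain rfl := f1 e
        exact ⟨mem_union_left _ (mem_image_of_mem _ (by simpa using k.symm)),
          mem_union_right _ (mem_image_of_mem _ (by simpa using k.symm))⟩
      · exact ⟨∅, by simp, fun x y _ e => (k ⟨y, e⟩).elim⟩
    obtain ⟨T, t1, t2⟩ : ∃ S : Finset ℕ, S.card ≤ (if ∃ y, g0 y = a then D else 0) ∧
        ∀ x y, G.Adj x y → g0 y = a → f0 x ∈ S := by
      split_ifs with k
      · obtain ⟨y, rfl⟩ := k
        refine ⟨(G.neighborFinset y).image f0, im y f0, fun x z k e => ?_⟩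
        obtain rfl := g1 e
        exact mem_image_of_mem _ (by simpa using k.symm)
      · exact ⟨∅, by simp, fun x y _ e => (k ⟨y, e⟩).elim⟩
    refine ⟨S ∪ T, ?_, (card_union_le _ _).trans (by omega)⟩
    rintro b ⟨x, y, k, ⟨rfl, e⟩ | ⟨rfl, e⟩ | ⟨rfl, e⟩⟩
    exacts [mem_union_left _ (s2 x y k e.symm).1, mem_union_right _ (t2 x y k e.symm),
      mem_union_left _ (s2 x y k e.symm).2]
  choose S hS hSc using key
  have ore : ∀ a b, a ≠ b → (S a).card + (S b).card + 2 ≤ N := by
    intro a b hab
    have ha := hSc a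
    have hb := hSc b
    rcases h4 with h4 | ⟨h4, h5⟩ | ⟨h4, h5⟩
    · split_ifs at ha hb <;> omega
    · by_cases ca : (∃ y, f0 y = a) ∧ ∃ y, g0 y = a
      · by_cases cb : (∃ y, f0 y = b) ∧ ∃ y, g0 y = b
        · obtain ⟨⟨x, hx⟩, y, hy⟩ := ca
          obtain ⟨⟨x', hx'⟩, y', hy'⟩ := cb
          have := h5 x y x' y' (hx.trans hy.symm) (hx'.trans hy'.symm)
          subst this
          exact (hab (hx.symm.trans hx')).elim
        · split_ifs at ha hb <;> first | omega | tauto
      · split_ifs at ha hb <;> first | omega | tauto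
    · have ca : ¬ ((∃ y, f0 y = a) ∧ ∃ y, g0 y = a) := fun ⟨⟨x, hx⟩, y, hy⟩ =>
        h5 x y (hx.trans hy.symm)
      have cb : ¬ ((∃ y, f0 y = b) ∧ ∃ y, g0 y = b) := fun ⟨⟨x, hx⟩, y, hy⟩ =>
        h5 x y (hx.trans hy.symm)
      split_ifs at ha hb <;> first | omega | tauto
  obtain ⟨q, q1, q2, q3⟩ := order' N n hnN r S
    (fun a b ⟨x, y, k, k'⟩ => ⟨y, x, k.symm, by tauto⟩)
    (fun a b ⟨x, y, k, k'⟩ => by have := f2 y; have := g2 y; omega) hS ore
  have lt : ∀ a < N, q.symm a < N := fun a ha => by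
    by_contra! k
    have := q2 _ k
    rw [q.apply_symm_apply] at this
    omega
  have far : ∀ a b, a < N → b < N → a ≠ b → r a b → r b a →
      q.symm a + 1 + 2 ≤ q.symm b + 1 ∨ q.symm b + 1 + 2 ≤ q.symm a + 1 := fun a b ha hb e k k' => by
    have := q.symm.injective.ne e
    have : q.symm a + 1 ≠ q.symm b := fun z => q3 _ (lt a ha) (by simpa [z] using k)
    have : q.symm b + 1 ≠ q.symm a := fun z => q3 _ (lt b hb) (by simpa [z] using k')
    omega
  refine ⟨_, build (f := fun x => q.symm (f0 x) + 1) (g := fun x => q.symm (g0 x) + 1)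
    ⟨fun u v k => far _ _ (f2 u) (f2 v) (f1.ne k.ne) ⟨u, v, k, by simp⟩ ⟨v, u, k.symm, by simp⟩,
      fun u v _ e _ _ => by simpa using f1.ne e⟩ (fun a b e => g1 (by simpa using e))
    (fun x => ?_) (fun x => by omega) (fun a b k => far _ _ (f2 a) (by have := g2 b; omega)
      (h2 a b k) ⟨a, b, k, by simp⟩ ⟨b, a, k.symm, by simp⟩)
    (fun a b c k k' e => h3 a b c k k' (by simpa using e)), ?_⟩
  · have : q.symm (g0 x) ≠ 0 := fun z => by
      have := g2 x
      rw [Equiv.symm_apply_eq, q1] at z
      omega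
    omega
  · rintro (a | a | a) <;> simp only [Sum.elim_inl, Sum.elim_inr]
    exacts [lt _ (f2 a), lt _ (by have := g2 a; omega), by omega]

/-- Any two vertices have distance at most two. -/
def Diam2 {V : Type} (G : SimpleGraph V) : Prop :=
  ∀ u v, u ≠ v → ¬ G.Adj u v → ∃ w, G.Adj u w ∧ G.Adj v w

lemma strict {D : ℕ} (h : ∀ x, G.degree x ≤ D) (hD : 1 ≤ D)
    (hn : 3 ≤ D ∨ 10 ≤ Fintype.card V) (hne : ¬ (Fintype.card V = D ^ 2 + 1 ∧ Diam2 G))
    (hnD : D < Fintype.card V) (h10 : D ≤ 2 → D ^ 2 + 1 < Fintype.card V) :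
    ∃ f, LL (Myc G) f ∧ ∀ x, f x ≤ Fintype.card V + D ^ 2 := by
  classical
  set n := Fintype.card V with hn'
  let e : V ≃ Fin n := Fintype.equivFin V
  have e1 : Function.Injective fun v => (e v : ℕ) := fun a b k => e.injective (Fin.ext k)
  rcases (by omega : D ^ 2 + 2 ≤ n ∨ n = D ^ 2 + 1 ∨ (n ≤ D ^ 2 ∧ D ^ 2 < 2 * n) ∨
    2 * n ≤ D ^ 2) with c | c | ⟨c, c'⟩ | c
  · -- large order
    obtain ⟨f0, f1, f2⟩ := hall (α := V) (β := Fin (n + D ^ 2)) (fun v l => (l : ℕ) = e v ∨
        (∃ u, G.Adj u v ∧ (l : ℕ) = e u) ∨ ∃ u ∈ Pool.Agent.LM97.far G v, (l : ℕ) = e u)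
      (D ^ 2 + 1) (D ^ 2 + 1) (by simp [← hn']) (by
        intro v
        have h1 : ((univ.filter fun l : Fin (n + D ^ 2) => (l : ℕ) = e v ∨
            (∃ u, G.Adj u v ∧ (l : ℕ) = e u) ∨
              ∃ u ∈ Pool.Agent.LM97.far G v, (l : ℕ) = e u).image
                fun l : Fin (n + D ^ 2) => (l : ℕ)) ⊆
            ({v} ∪ G.neighborFinset v ∪ Pool.Agent.LM97.far G v).image fun u => (e u : ℕ) := by
          intro l hl
          obtain ⟨k, hk, rfl⟩ := mem_image.1 hl
          rcases (mem_filter.1 hk).2 with h | ⟨u, h, h'⟩ | ⟨u, h, h'⟩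
          · exact mem_image.2 ⟨v, by simp, h.symm⟩
          · exact mem_image.2 ⟨u, by simp [h.symm], h'.symm⟩
          · exact mem_image.2 ⟨u, by simp [h], h'.symm⟩
        have h2 := card_le_card h1
        rw [card_image_of_injective _ Fin.val_injective] at h2
        have h3 := card_image_le (s := {v} ∪ G.neighborFinset v ∪ Pool.Agent.LM97.far G v)
          (f := fun u => (e u : ℕ))
        have h4 := card_union_le ({v} ∪ G.neighborFinset v) (Pool.Agent.LM97.far G v)
        have h5 := card_union_le {v} (G.neighborFinset v)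
        rw [card_singleton] at h5
        have h6 : (G.neighborFinset v).card ≤ D := h v
        have h7 := card_far G h v
        have h8 : D + D * (D - 1) = D ^ 2 := by
          obtain ⟨d, rfl⟩ := Nat.exists_eq_add_of_le' hD
          simp only [Nat.add_sub_cancel]; ring
        omega) (by
        intro l
        by_cases hl : ∃ v, (l : ℕ) = e v
        · obtain ⟨v, hv⟩ := hl
          have h1 : (univ.filter fun u : V => (l : ℕ) = e u ∨
              (∃ w, G.Adj w u ∧ (l : ℕ) = e w) ∨ ∃ w ∈ Pool.Agent.LM97.far G u, (l : ℕ) = e w) ⊆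
              {v} ∪ G.neighborFinset v ∪ Pool.Agent.LM97.far G v := by
            intro u hu
            rcases (mem_filter.1 hu).2 with h | ⟨w, h, h'⟩ | ⟨w, h, h'⟩
            · have := e1 (h.symm.trans hv)
              simp [this]
            · have := e1 (h'.symm.trans hv)
              subst this
              simp [h]
            · have := e1 (h'.symm.trans hv)
              subst this
              obtain ⟨h3, k, h4, h5⟩ := (mem_far G).1 h
              exact mem_union_right _ ((mem_far G).2 ⟨h3.symm, k, h5.symm, h4.symm⟩)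
          have h2 := card_le_card h1
          have h4 := card_union_le ({v} ∪ G.neighborFinset v) (Pool.Agent.LM97.far G v)
          have h5 := card_union_le {v} (G.neighborFinset v)
          rw [card_singleton] at h5
          have h6 : (G.neighborFinset v).card ≤ D := h v
          have h7 := card_far G h v
          have h8 : D + D * (D - 1) = D ^ 2 := by
            obtain ⟨d, rfl⟩ := Nat.exists_eq_add_of_le' hD
            simp only [Nat.add_sub_cancel]; ring
          omega
        · rw [filter_eq_empty_iff.2]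
          · simp
          · rintro u - (h | ⟨w, h, h'⟩ | ⟨w, h, h'⟩)
            exacts [hl ⟨_, h⟩, hl ⟨_, h'⟩, hl ⟨_, h'⟩]) (by simp; omega)
    refine finish G (D := D) (n := n) (N := n + D ^ 2) h (f0 := fun v => f0 v)
      (g0 := fun v => e v) (fun a b k => f1 (Fin.ext k)) e1 (fun x => (f0 x).2) (fun x => (e x).2)
      (by nlinarith) (fun x k => f2 x (Or.inl k)) (fun x y a k => f2 x (Or.inr (Or.inl ⟨y, a.symm, k⟩)))
      (fun x y z a b k => ?_) (Or.inl ?_)
    · by_cases hxy : y = x
      · subst hxy; exact f2 y (Or.inl k)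
      · exact f2 x (Or.inr (Or.inr ⟨y, (mem_far G).2 ⟨hxy, z, a, b.symm⟩, k⟩))
    · rcases hn with hn | hn
      · nlinarith
      · rcases (by omega : D = 1 ∨ D = 2 ∨ 3 ≤ D) with k | k | k
        · subst k; omega
        · subst k; omega
        · nlinarith
  · -- order D ^ 2 + 1, but two vertices are far apart
    have hD3 : 3 ≤ D := by
      by_contra k
      have := h10 (by omega)
      omega
    obtain ⟨i, j, hij, ha, hw⟩ : ∃ i j, i ≠ j ∧ ¬ G.Adj i j ∧ ∀ w, G.Adj i w → ¬ G.Adj j w := by
      by_contra! k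
      exact hne ⟨c, fun u v a b => k u v a b⟩
    let l : Fin n := ⟨n - 1, by omega⟩
    let e' := e.trans (Equiv.swap (e i) l)
    have ei : e' i = l := by simp [e']
    have e2 : Function.Injective fun v => (e' v : ℕ) := fun a b k => e'.injective (Fin.ext k)
    have e3 : ∀ x, x ≠ i → (e' x : ℕ) < n - 1 := fun x hx => by
      have h1 := (e' x).2
      have h2 : (e' x : ℕ) ≠ n - 1 := fun k => hx (e'.injective (by
        rw [ei]; exact Fin.ext k))
      omega
    refine finish G (D := D) (n := n) (N := n + D ^ 2) h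
      (f0 := fun v => if v = i then (e' j : ℕ) else n + e' v)
      (g0 := fun v => e' v) (fun a b k => ?_) e2 (fun x => ?_) (fun x => (e' x).2)
      (by nlinarith) (fun x => ?_) (fun x y a => ?_)
      (fun x y z a b => ?_) (Or.inr (Or.inl ⟨by nlinarith, ?_⟩))
    · have h1 := (e' j).2
      dsimp only at k
      split_ifs at k with k1 k2 k2
      · rw [k1, k2]
      · omega
      · omega
      · exact e2 (by simpa using k)
    · have h1 := (e' j).2
      split_ifs with k1
      · omega
      · have := e3 x k1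
        omega
    · have h1 := (e' x).2
      split_ifs with k1
      · subst k1
        exact fun k => hij (e2 k).symm
      · omega
    · have h1 := (e' y).2
      split_ifs with k1
      · subst k1
        exact fun k => ha (by have := e2 k; subst this; exact a)
      · omega
    · have h1 := (e' y).2
      split_ifs with k1
      · subst k1
        exact fun k => hw z a (by have := e2 k; subst this; exact b)
      · omega
    · intro x y x' y' h1 h2
      have h3 := (e' y).2
      have h4 := (e' y').2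
      split_ifs at h1 h2 with k1 k2 k2
      · rw [k1, k2]
      all_goals omega
  · -- order at most D ^ 2
    have hD3 : 3 ≤ D := by
      by_contra k
      have := h10 (by omega)
      omega
    refine finish G (D := D) (n := n) (N := n + D ^ 2) h (f0 := fun v => n + e v)
      (g0 := fun v => e v) (fun a b k => e1 (by simpa using k)) e1
      (fun x => by have := (e x).2; omega) (fun x => (e x).2)
      (by nlinarith) (fun x => by have := (e x).2; omega) (fun x y _ => by have := (e y).2; omega)
      (fun x y z _ _ => by have := (e y).2; omega) (Or.inr (Or.inr ⟨?_, fun x y => ?_⟩))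
    · obtain ⟨d, rfl⟩ := Nat.exists_eq_add_of_le' hD3
      nlinarith
    · have := (e y).2
      omega
  · refine ⟨_, build (f := fun x => 2 * e x + 1) (g := fun x => 2 * n + 1 + e x)
      ⟨fun u v k => ?_, fun u v _ k _ _ k' => k (e1 (by simpa using k'))⟩
      (fun a b k => e1 (by simpa using k)) (fun x => by omega) (fun x => by omega)
      (fun a b _ => ?_) (fun a b _ _ _ => ?_), ?_⟩
    · have : (e u : ℕ) ≠ e v := fun k' => k.ne (e1 k')
      show 2 * (e u : ℕ) + 1 + 2 ≤ 2 * (e v : ℕ) + 1 ∨ 2 * (e v : ℕ) + 1 + 2 ≤ 2 * (e u : ℕ) + 1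
      omega
    · have := (e a).2
      left; omega
    · have := (e a).2
      omega
    · rintro (a | a | a) <;> simp only [Sum.elim_inl, Sum.elim_inr]
      exacts [by have := (e a).2; omega, by have := (e a).2; omega, by omega]

end Pool.Agent.LM97
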