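import Pool.Agent.LM97.B

/-!
Iteration, Moore graphs and sparse graphs. Helper for MP_f0917b_co.
-/

set_option autoImplicit false

namespace Pool.Agent.LM97

open Finset Pool.Agent.Results.MP_f0917b_co.Yes

/-- The `L(2,1)`-labelling number. -/
noncomputable def lam {V : Type} (G : SimpleGraph V) : ℕ :=
  sInf {k | ∃ f : V → ℕ, L21 G f ∧ ∀ x, f x ≤ k}

lemma L21_of_LL {V : Type} {G : SimpleGraph V} {f : V → ℕ} (h : LL G f) : L21 G f := by
  refine ⟨h.1, fun u v k => ?_⟩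
  obtain ⟨e, -, w, k1, k2⟩ := SimpleGraph.edist_eq_two_iff.1 (show G.edist u v = 2 by
    rw [← SimpleGraph.Reachable.coe_dist_eq_edist
      (SimpleGraph.Reachable.of_dist_ne_zero (by omega)), k]; rfl)
  exact h.2 u v w e k1 k2

lemma ne_of_common {V : Type} {G : SimpleGraph V} {f : V → ℕ} (h : L21 G f) {u v w : V}
    (e : u ≠ v) (h1 : G.Adj u w) (h2 : G.Adj v w) : f u ≠ f v := by
  by_cases a : G.Adj u v
  · have := h.1 u v a
    omega
  · refine h.2 u v ?_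
    have : G.edist u v = 2 := SimpleGraph.edist_eq_two_iff.2 ⟨e, a, w, h1, h2⟩
    rw [SimpleGraph.dist, this]
    rfl

lemma lam_le {V : Type} {G : SimpleGraph V} {K : ℕ} (h : ∃ f, LL G f ∧ ∀ x, f x ≤ K) :
    lam G ≤ K := by
  obtain ⟨f, h1, h2⟩ := h
  exact Nat.sInf_le ⟨f, L21_of_LL h1, h2⟩

lemma le_lam {V : Type} {G : SimpleGraph V} {K K' : ℕ} (h : ∃ f, L21 G f ∧ ∀ x, f x ≤ K')
    (h' : ∀ f : V → ℕ, L21 G f → ∀ k, (∀ x, f x ≤ k) → K ≤ k) : K ≤ lam G := by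
  obtain ⟨f, h1, h2⟩ := h
  obtain ⟨f, h3, h4⟩ := Nat.sInf_mem (s := {k | ∃ f : V → ℕ, L21 G f ∧ ∀ x, f x ≤ k})
    ⟨K', f, h1, h2⟩
  exact h' f h3 _ h4

lemma card_VT (V : Type) [Finite V] : ∀ t, Finite (VT V t) ∧
    Nat.card (VT V t) + 1 = 2 ^ t * (Nat.card V + 1)
  | 0 => ⟨inferInstanceAs (Finite V), by simp [VT]⟩
  | t + 1 => by
    obtain ⟨i1, i2⟩ := card_VT V t
    refine ⟨inferInstanceAs (Finite (_ ⊕ _ ⊕ Unit)), ?_⟩
    change Nat.card (VT V t ⊕ VT V t ⊕ Unit) + 1 = _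
    simp only [Nat.card_sum, Nat.card_unique]
    rw [pow_succ' 2 t, mul_assoc]; omega

lemma chain {V : Type} [Finite V] {G : SimpleGraph V} {K : ℕ}
    (hb : ∃ f, LL (Myc G) f ∧ ∀ x, f x ≤ K) : ∀ t, Finite (VT V (t + 1)) ∧
      Nat.card (VT V (t + 1)) + 1 = 2 ^ (t + 1) * (Nat.card V + 1) ∧
      ∃ f, LL (It G (t + 1)) f ∧ ∀ x, f x + 2 * (Nat.card V + 1) ≤
        K + 2 ^ (t + 1) * (Nat.card V + 1) := by
  intro t
  induction t with
  | zero =>
    refine ⟨inferInstanceAs (Finite (V ⊕ V ⊕ Unit)), ?_, hb.imp fun f k =>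
      ⟨k.1, fun x => by have := k.2 x; omega⟩⟩
    change Nat.card (V ⊕ V ⊕ Unit) + 1 = _
    simp only [Nat.card_sum, Nat.card_unique]; omega
  | succ t ih =>
    obtain ⟨i1, i2, f, i3, i4⟩ := ih
    have : Nonempty (VT V (t + 1)) := ⟨.inr (.inr ())⟩
    obtain ⟨g, g1, g2⟩ := step (G := It G (t + 1)) (K := K + 2 ^ (t + 1) * (Nat.card V + 1) -
      2 * (Nat.card V + 1)) ⟨f, i3, fun x => by have := i4 x; omega⟩
    have := i4 (.inr (.inr ()))
    refine ⟨inferInstanceAs (Finite (_ ⊕ _ ⊕ Unit)), ?_, g, g1, fun x => ?_⟩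
    · change Nat.card (VT V (t + 1) ⊕ VT V (t + 1) ⊕ Unit) + 1 = _
      simp only [Nat.card_sum, Nat.card_unique]
      rw [pow_succ' 2 (t + 1), mul_assoc]; omega
    · have := g2 x
      rw [pow_succ' 2 (t + 1), mul_assoc]; omega

/-- An upper bound for `M(G)` gives one for `M^t(G)`. -/
lemma lam_chain {V : Type} [Finite V] {G : SimpleGraph V} {K t : ℕ} (ht : 1 ≤ t)
    (hb : ∃ f, LL (Myc G) f ∧ ∀ x, f x ≤ K) :
    (∃ f, LL (It G t) f ∧ ∀ x, f x ≤ K + (2 ^ t - 2) * (Nat.card V + 1)) ∧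
      lam (It G t) ≤ K + (2 ^ t - 2) * (Nat.card V + 1) := by
  obtain ⟨s, rfl⟩ := Nat.exists_eq_add_of_le' ht
  obtain ⟨-, -, f, h1, h2⟩ := chain hb s
  have h3 : ∀ x, f x ≤ K + (2 ^ (s + 1) - 2) * (Nat.card V + 1) := fun x => by
    have := h2 x
    rw [Nat.sub_mul]
    have : 2 * (Nat.card V + 1) ≤ 2 ^ (s + 1) * (Nat.card V + 1) :=
      Nat.mul_le_mul_right _ (by rw [pow_succ]; have := Nat.one_le_two_pow (n := s); omega)
    omega
  exact ⟨⟨f, h1, h3⟩, lam_le ⟨f, h1, h3⟩⟩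

lemma diam2_myc {V : Type} [Nonempty V] {G : SimpleGraph V} (h : Diam2 G) (iso : ∀ v, ∃ w, G.Adj v w) :
    Diam2 (Myc G) ∧ ∀ v, ∃ w, (Myc G).Adj v w := by
  have a1 : ∀ a b, G.Adj a b → (Myc G).Adj (.inl a) (.inl b) := fun a b k => by
    simp [Myc, k, k.ne]
  have a2 : ∀ a b, G.Adj a b → (Myc G).Adj (.inl a) (.inr (.inl b)) := fun a b k => by
    simp [Myc, k]
  have a2' : ∀ a b, G.Adj a b → (Myc G).Adj (.inr (.inl a)) (.inl b) := fun a b k =>
    (a2 b a k.symm).symm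
  have a3 : ∀ a u, (Myc G).Adj (.inr (.inl a)) (.inr (.inr u)) := fun a u => by
    simp [Myc]
  have a3' : ∀ a u, (Myc G).Adj (.inr (.inr u)) (.inr (.inl a)) := fun a u => (a3 a u).symm
  have b1 : ∀ a b, ∃ w, G.Adj a b ∨ (G.Adj a w ∧ G.Adj b w) := by
    intro a b
    by_cases hab : a = b
    · subst hab
      obtain ⟨w, hw⟩ := iso a
      exact ⟨w, Or.inr ⟨hw, hw⟩⟩
    · by_cases hb : G.Adj a b
      · exact ⟨a, Or.inl hb⟩
      · obtain ⟨w, h1, h2⟩ := h a b hab hb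
        exact ⟨w, Or.inr ⟨h1, h2⟩⟩
  refine ⟨?_, ?_⟩
  · rintro (a | a | a) (b | b | b) e k
    · obtain ⟨w, h1 | ⟨h1, h2⟩⟩ := b1 a b
      · exact (k (a1 _ _ h1)).elim
      · exact ⟨.inl w, a1 _ _ h1, a1 _ _ h2⟩
    · obtain ⟨w, h1 | ⟨h1, h2⟩⟩ := b1 a b
      · exact (k (a2 _ _ h1)).elim
      · exact ⟨.inl w, a1 _ _ h1, a2' _ _ h2⟩
    · obtain ⟨w, hw⟩ := iso a
      exact ⟨.inr (.inl w), a2 _ _ hw, a3' _ _⟩
    · obtain ⟨w, h1 | ⟨h1, h2⟩⟩ := b1 a b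
      · exact (k (a2' _ _ h1)).elim
      · exact ⟨.inl w, a2' _ _ h1, a1 _ _ h2⟩
    · exact ⟨.inr (.inr ()), a3 _ _, a3 _ _⟩
    · exact (k (a3 _ _)).elim
    · obtain ⟨w, hw⟩ := iso b
      exact ⟨.inr (.inl w), a3' _ _, a2 _ _ hw⟩
    · exact (k (a3' _ _)).elim
    · exact (e rfl).elim
  · rintro (a | a | a)
    · obtain ⟨w, hw⟩ := iso a
      exact ⟨.inl w, a1 _ _ hw⟩
    · exact ⟨.inr (.inr ()), a3 _ _⟩
    · obtain ⟨v⟩ := ‹Nonempty V›
      exact ⟨.inr (.inl v), a3' _ _⟩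

lemma diam2_It {V : Type} [Nonempty V] {G : SimpleGraph V} (h : Diam2 G)
    (iso : ∀ v, ∃ w, G.Adj v w) : ∀ t, Nonempty (VT V t) ∧ Diam2 (It G t) ∧
      ∀ v, ∃ w, (It G t).Adj v w
  | 0 => ⟨‹_›, h, iso⟩
  | t + 1 => by
    obtain ⟨h1, h2, h3⟩ := diam2_It h iso t
    have := diam2_myc h2 h3
    exact ⟨⟨.inr (.inr ())⟩, this.1, this.2⟩

/-- In a graph of diameter at most two all labels are different. -/
lemma diam2_le {V : Type} [Finite V] {G : SimpleGraph V} (h : Diam2 G) {f : V → ℕ} (hf : L21 G f)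
    {k : ℕ} (hk : ∀ x, f x ≤ k) : Nat.card V ≤ k + 1 := by
  classical
  have inj : Function.Injective fun x => (⟨f x, Nat.lt_succ_of_le (hk x)⟩ : Fin (k + 1)) := by
    intro u v huv
    by_contra e
    have e' : f u = f v := by simpa using huv
    by_cases a : G.Adj u v
    · have := hf.1 u v a
      omega
    · obtain ⟨w, h1, h2⟩ := h u v e a
      exact ne_of_common hf e h1 h2 e'
  simpa using Nat.card_le_card_of_injective _ inj

/-- The apex and its neighbours need `n + 2` labels. -/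
lemma myc_le {V : Type} [Finite V] [Nonempty V] {G : SimpleGraph V} {f : V ⊕ V ⊕ Unit → ℕ}
    (hf : L21 (Myc G) f) {k : ℕ} (hk : ∀ x, f x ≤ k) : Nat.card V + 1 ≤ k := by
  classical
  have := Fintype.ofFinite V
  have a3 : ∀ a, (Myc G).Adj (.inr (.inl a)) (.inr (.inr ())) := fun a => by
    simp [Myc]
  set r := f (.inr (.inr ())) with hr
  have h1 : ∀ a, f (.inr (.inl a)) + 2 ≤ r ∨ r + 2 ≤ f (.inr (.inl a)) := fun a =>
    hf.1 _ _ (a3 a)
  have inj : Function.Injective fun a : V => f (.inr (.inl a)) := by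
    intro a b hab
    by_contra e
    exact ne_of_common hf (u := .inr (.inl a)) (v := .inr (.inl b)) (by simpa using e)
      (a3 a) (a3 b) hab
  obtain ⟨a0⟩ := ‹Nonempty V›
  obtain ⟨r', h2, h3, h4⟩ : ∃ r', r' ≤ k ∧ r' ≠ r ∧ (r' = r + 1 ∨ r = r' + 1) := by
    have h5 := hk (.inr (.inl a0))
    have h6 := hk (.inr (.inr ()))
    rcases h1 a0 with h | h
    · exact ⟨r - 1, by omega, by omega, by omega⟩
    · exact ⟨r + 1, by omega, by omega, by omega⟩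
  have h5 : (univ.image fun a : V => f (.inr (.inl a))) ⊆ ((range (k + 1)).erase r).erase r' := by
    intro l hl
    obtain ⟨a, -, rfl⟩ := mem_image.1 hl
    have h6 := h1 a
    have h7 := hk (.inr (.inl a))
    simp only [mem_erase, mem_range]
    omega
  have h6 := card_le_card h5
  rw [card_image_of_injective _ inj, card_univ, card_erase_of_mem, card_erase_of_mem,
    card_range] at h6
  · rw [Nat.card_eq_fintype_card]
    have : 0 < Fintype.card V := Fintype.card_pos_iff.2 ⟨a0⟩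
    omega
  · have := hk (.inr (.inr ()))
    exact mem_range.2 (by omega)
  · exact mem_erase.2 ⟨h3, mem_range.2 (by omega)⟩

/-- Sparse graphs. -/
lemma sparse {V : Type} [Fintype V] {G : SimpleGraph V} [DecidableRel G.Adj] {d : ℕ}
    (hd : ∀ v, G.degree v ≤ d) (hn : 2 * (d + 1) ^ 2 ≤ Fintype.card V) :
    ∃ f, LL (Myc G) f ∧ ∀ x, f x ≤ Fintype.card V + 1 := by
  classical
  obtain ⟨f, f1, f2, f3⟩ := exists_f G hd le_rfl (by nlinarith)
  obtain ⟨g, g1, g2, g3, g4, g5⟩ := exists_g G hd le_rfl hn f1 f2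
  refine ⟨_, build (f := fun x => f x + 2) (g := fun x => g x + 2)
    ⟨fun u v k => ?_, fun u v _ k _ _ k' => k (f1 (by simpa using k'))⟩
    (fun a b k => g1 (by simpa using k)) (fun x => by omega) (fun x => by omega)
    (fun a b k => ?_) (fun a b c h1 h2 k => ?_), ?_⟩
  · have := f3 u v k
    show f u + 2 + 2 ≤ f v + 2 ∨ f v + 2 + 2 ≤ f u + 2
    omega
  · have := g3 a b k
    omega
  · exact g5 a b c h2 h1.symm (by simpa using k)
  · rintro (a | a | a) <;> simp only [Sum.elim_inl, Sum.elim_inr]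
    exacts [by have := f2 a; omega, by have := g2 a; omega, by omega]

end Pool.Agent.LM97
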